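import Mathlib
import Pool.Agent.K4H14.QT.Curves

/-!
# The Frobenius classes of all but few quadratic twists of an abelian variety

Part 1 is on the abelian varieties `A = Jac(y² = f_1(x)) × ... × Jac(y² = f_r(x))`, with `f_i ∈ ℤ[x]`
monic of odd degree `2 g_i + 1`, and their quadratic twists `A_D = ∏ Jac(D y² = f_i(x))`. Part 2 is on
arbitrary sequences of classes `x_p` (of complex matrices) and the twisted classes `(D/p) x_p`; for an
arbitrary abelian variety over `ℚ` these are the normalised Frobenius classes of its quadratic twists.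
-/

set_option autoImplicit false

namespace Pool.Agent.Results.MP_c481b3_nt.AllButFewTwists

open Finset Polynomial Filter

/-- The number of the solutions `(x, y)` of `D y² = f(x)` in the field with `p ^ j` elements. -/
noncomputable def points (D : ℤ) (f : ℤ[X]) (p j : ℕ) : ℕ :=
  if h : p.Prime then
    haveI : Fact p.Prime := ⟨h⟩
    Nat.card {P : GaloisField p j × GaloisField p j //
      (D : GaloisField p j) * P.2 ^ 2 = (f.map (Int.castRingHom (GaloisField p j))).eval P.1}
  else 0

/-- The trace of the `j`-th power of the normalised Frobenius at `p` of the curve `C : D y² = f(x)`,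
`f` monic of odd degree: `(p ^ j + 1 - #C(F_{p ^ j})) / p ^ (j / 2)`, where
`#C(F_{p ^ j}) = points D f p j + 1` (there is one point at infinity). For a curve of genus `g` with
good reduction the numbers with `j = 1, ..., g` determine the class in `USp(2g)`. -/
noncomputable def trace (D : ℤ) (f : ℤ[X]) (p j : ℕ) : ℝ :=
  ((p : ℝ) ^ j + 1 - (points D f p j + 1)) / Real.sqrt p ^ j

/-- `p` is an odd prime that does not divide `D`, and all `f_i` are separable modulo `p`: the twist
`A_D` has good reduction at `p`. -/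
def Good {r : ℕ} (D : ℤ) (f : Fin r → ℤ[X]) (p : ℕ) : Prop :=
  p.Prime ∧ p ≠ 2 ∧ ¬ (p : ℤ) ∣ D ∧ ∀ i, ((f i).map (Int.castRingHom (ZMod p))).Separable

open Classical in
/-- The number of the good primes `p < x` such that the Frobenius class of `A_D` at `p` is in the box
`∏ I i j`: for all `i` and `1 ≤ j ≤ g_i` the trace of the `j`-th power of the normalised Frobenius of
`D y² = f_i(x)` at `p` is in `I i (j - 1)`. -/
noncomputable def count {r : ℕ} {g : Fin r → ℕ} (D : ℤ) (f : Fin r → ℤ[X])
    (I : (i : Fin r) → Fin (g i) → Set ℝ) (x : ℕ) : ℕ :=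
  ((range x).filter (fun p => Good D f p ∧
    ∀ (i : Fin r) (j : Fin (g i)), trace D (f i) p (j + 1) ∈ I i j)).card

/-- The box `-I`: a class is in `-I` if its negative, whose traces of the `j`-th powers are `(-1)^j`
times the traces of the class, is in `I`. -/
def neg {r : ℕ} {g : Fin r → ℕ} (I : (i : Fin r) → Fin (g i) → Set ℝ) :
    (i : Fin r) → Fin (g i) → Set ℝ :=
  fun i j => {t | (-1) ^ ((j : ℕ) + 1) * t ∈ I i j}

open Classical in
/-- For a sequence `M` of complex matrices, the number of the odd primes `p < x` such that for all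
`1 ≤ j ≤ g` the trace of `((D/p) M p) ^ j` (its real part) is in `I (j - 1)`. -/
noncomputable def cnt {n g : ℕ} (D : ℤ) (M : ℕ → Matrix (Fin n) (Fin n) ℂ) (I : Fin g → Set ℝ)
    (x : ℕ) : ℕ :=
  ((range x).filter (fun p => p.Prime ∧ p ≠ 2 ∧
    ∀ j : Fin g, ((((jacobiSym D p : ℂ) • M p) ^ ((j : ℕ) + 1)).trace).re ∈ I j)).card

open Pool.Agent.H306R2.RZ (js)
open Pool.Agent.K4H14.QT (T mem_T cB tw rf few)

theorem cB_congr {κ : Type} [Fintype κ] (v w : ℕ → κ → ℝ) (I J : κ → Set ℝ) (x : ℕ)
    (h : ∀ p : ℕ, p.Prime → p ≠ 2 → ((∀ c, v p c ∈ I c) ↔ (∀ c, w p c ∈ J c))) :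
    cB v I x = cB w J x := by
  classical
  unfold cB
  congr 1
  ext p
  rw [mem_filter, mem_filter, mem_T]
  constructor
  · rintro ⟨h1, h2⟩
    exact ⟨h1, (h p h1.2.1 h1.2.2).1 h2⟩
  · rintro ⟨h1, h2⟩
    exact ⟨h1, (h p h1.2.1 h1.2.2).2 h2⟩

theorem count_eq {r : ℕ} {g : Fin r → ℕ} {κ : Type} [Fintype κ] (D : ℤ) (f : Fin r → ℤ[X])
    (I : (i : Fin r) → Fin (g i) → Set ℝ) (x : ℕ) (P : ℕ → κ → ℝ) (J : κ → Set ℝ)
    (h : ∀ p : ℕ, p.Prime → p ≠ 2 → ((∀ c, P p c ∈ J c) ↔ (Good D f p ∧
      ∀ (i : Fin r) (j : Fin (g i)), trace D (f i) p (j + 1) ∈ I i j))) :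
    count D f I x = cB P J x := by
  classical
  unfold count cB
  congr 1
  ext p
  rw [mem_filter, mem_filter, mem_T, mem_range]
  constructor
  · rintro ⟨h1, h2⟩
    exact ⟨⟨h1, h2.1.1, h2.1.2.1⟩, (h p h2.1.1 h2.1.2.1).2 h2⟩
  · rintro ⟨h1, h2⟩
    exact ⟨h1.1, (h p h1.2.1 h1.2.2).1 h2⟩

theorem cnt_eq {n g : ℕ} {κ : Type} [Fintype κ] (D : ℤ) (M : ℕ → Matrix (Fin n) (Fin n) ℂ) (I : Fin g → Set ℝ)
    (x : ℕ) (P : ℕ → κ → ℝ) (J : κ → Set ℝ)
    (h : ∀ p : ℕ, p.Prime → p ≠ 2 → ((∀ c, P p c ∈ J c) ↔ (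
      ∀ j : Fin g, ((((jacobiSym D p : ℂ) • M p) ^ ((j : ℕ) + 1)).trace).re ∈ I j))) :
    cnt D M I x = cB P J x := by
  classical
  unfold cnt cB
  congr 1
  ext p
  rw [mem_filter, mem_filter, mem_T, mem_range]
  constructor
  · rintro ⟨h1, h2, h3, h4⟩
    exact ⟨⟨h1, h2, h3⟩, (h p h2 h3).2 h4⟩
  · rintro ⟨h1, h2⟩
    exact ⟨h1.1, h1.2.1, h1.2.2, (h p h1.2.1 h1.2.2).1 h2⟩

theorem trace_twist (D : ℤ) (f : ℤ[X]) (p j : ℕ) (hp : p.Prime) (hp2 : p ≠ 2) (hj : j ≠ 0)
    (hD : ¬ (p : ℤ) ∣ D) : trace D f p j = js D p ^ j * trace 1 f p j := by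
  have h := Pool.Agent.K4H14.QT.points_twist D f p j hp hp2 hj hD
  have h1 : points D f p j = Pool.Agent.K4H14.QT.points D f p j := rfl
  have h2 : points 1 f p j = Pool.Agent.K4H14.QT.points 1 f p j := rfl
  unfold trace
  rw [h1, h2]
  have e : (p : ℝ) ^ j + 1 - ((Pool.Agent.K4H14.QT.points D f p j : ℝ) + 1) =
      js D p ^ j * ((p : ℝ) ^ j + 1 - ((Pool.Agent.K4H14.QT.points 1 f p j : ℝ) + 1)) := by
    linarith
  rw [e]
  ring

theorem js_sq (D : ℤ) (p : ℕ) (hp : p.Prime) : (js D p) ^ 2 = if (p : ℤ) ∣ D then 0 else 1 := by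
  have : NeZero p := ⟨hp.ne_zero⟩
  split_ifs with h
  · have h0 : jacobiSym D p = 0 := by
      rw [jacobiSym.eq_zero_iff_not_coprime]
      intro hc
      have h1 : (p : ℤ).natAbs ∣ Int.gcd D p := by
        rw [Int.natAbs_natCast]
        exact Int.dvd_gcd (by exact_mod_cast h) (dvd_refl _) |> fun h2 => by exact_mod_cast h2
      rw [hc, Int.natAbs_natCast, Nat.dvd_one] at h1
      exact hp.one_lt.ne' h1
    unfold js
    rw [h0]
    simp
  · have h1 : Int.gcd D p = 1 := by
      rw [← Int.isCoprime_iff_gcd_eq_one, isCoprime_comm]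
      exact (Int.prime_iff_natAbs_prime.2 (by rw [Int.natAbs_natCast]; exact hp)).coprime_iff_not_dvd.2 h
    unfold js
    rcases jacobiSym.eq_one_or_neg_one h1 with h3 | h3
    · rw [h3]; simp
    · rw [h3]; simp

/-- **Result.** Let `1/2 < θ ≤ 1` and `ε > 0`. For every dimension `d` there are `C` and `c > 0` such
that for all large `N` the following holds.

1. Let `A` be the product of the Jacobians of `y² = f_i(x)`, `f_i` monic of degree `2 g_i + 1`,
`g_1 + ... + g_r = d`. For all but at most `N ^ (2 - 2 θ + ε)` of the squarefree integers `|D| ≤ N`,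
for all `(log N) ^ C ≤ x ≤ N ^ c` and all boxes `I`, the number of the good `p < x` for which the
class of the twist `A_D` is in `I` differs from the mean of the numbers of the `p` for which the class
of `A` is in `I` and in `-I` by at most `x ^ θ`.

2. The same for every sequence `M` of matrices, with the twists `(D/p) M p`; so for every abelian
variety of dimension `d` over `ℚ`. -/
theorem result (d : ℕ) (θ ε : ℝ) (hθ : 1 / 2 < θ) (hθ1 : θ ≤ 1) (hε : 0 < ε) :
    (∃ C c : ℝ, 0 < c ∧ ∀ᶠ N : ℕ in atTop, ∀ (r : ℕ) (g : Fin r → ℕ), ∑ i, g i = d →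
      ∀ f : Fin r → ℤ[X], (∀ i, (f i).Monic ∧ (f i).natDegree = 2 * g i + 1) →
      ∃ E : Finset ℤ, (E.card : ℝ) ≤ (N : ℝ) ^ (2 - 2 * θ + ε) ∧
        ∀ D : ℤ, Squarefree D → |D| ≤ N → D ∉ E →
          ∀ x : ℕ, Real.log N ^ C ≤ x → (x : ℝ) ≤ (N : ℝ) ^ c →
          ∀ I : (i : Fin r) → Fin (g i) → Set ℝ, (∀ i j, (I i j).OrdConnected) →
            |(count D f I x : ℝ) - ((count 1 f I x : ℝ) + count 1 f (neg I) x) / 2| ≤ (x : ℝ) ^ θ) ∧
    (∃ C c : ℝ, 0 < c ∧ ∀ᶠ N : ℕ in atTop, ∀ (n : ℕ) (M : ℕ → Matrix (Fin n) (Fin n) ℂ),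
      ∃ E : Finset ℤ, (E.card : ℝ) ≤ (N : ℝ) ^ (2 - 2 * θ + ε) ∧
        ∀ D : ℤ, Squarefree D → |D| ≤ N → D ∉ E →
          ∀ x : ℕ, Real.log N ^ C ≤ x → (x : ℝ) ≤ (N : ℝ) ^ c →
          ∀ I : Fin d → Set ℝ, (∀ j, (I j).OrdConnected) →
            |(cnt D M I x : ℝ) - ((cnt 1 M I x : ℝ) + cnt 1 (fun p => - M p) I x) / 2| ≤
              (x : ℝ) ^ θ) := by
  classical
  have hfin : ∀ (N : ℕ) (Q : ℤ → Prop), {D : ℤ | Squarefree D ∧ |D| ≤ N ∧ Q D}.Finite := by
    intro N Q
    apply (Set.finite_Icc (-(N : ℤ)) N).subset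
    rintro D ⟨_, h2, _⟩
    exact Set.mem_Icc.2 (abs_le.1 h2)
  constructor
  · obtain ⟨C, c, _, hc, h⟩ := few (d + 1) θ ε hθ hθ1 hε
    refine ⟨C, c, hc, ?_⟩
    filter_upwards [h] with N hN r g hg f _
    have hcard : Fintype.card (Option (Σ i : Fin r, Fin (g i))) = d + 1 := by
      rw [Fintype.card_option, Fintype.card_sigma, ← hg]
      simp
    set o : Option (Σ i : Fin r, Fin (g i)) → ℕ := fun c => match c with
      | none => 2
      | some c => (c.2 : ℕ) + 1 with ho
    set P : ℕ → Option (Σ i : Fin r, Fin (g i)) → ℝ := fun p c => match c with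
      | none => if Good 1 f p then 1 else 0
      | some c => trace 1 (f c.1) p ((c.2 : ℕ) + 1) with hP
    have hfew := hN (Option (Σ i : Fin r, Fin (g i))) hcard o P
    refine ⟨(hfin N (fun D => ∃ x : ℕ, Real.log N ^ C ≤ x ∧ (x : ℝ) ≤ (N : ℝ) ^ c ∧
        ∃ I : Option (Σ i : Fin r, Fin (g i)) → Set ℝ, (∀ c, (I c).OrdConnected) ∧
          (x : ℝ) ^ θ < |(cB (tw o D P) I x : ℝ) - 1 / 2 * ((cB P I x : ℝ) + cB (rf o P) I x)|)).toFinset,
      ?_, ?_⟩
    rotate_left
    · intro D hD1 hD2 hD3 x hx1 hx2 I hI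
      by_contra hcon
      push Not at hcon
      apply hD3
      rw [Set.Finite.mem_toFinset]
      set J : Option (Σ i : Fin r, Fin (g i)) → Set ℝ := fun c => match c with
        | none => {1}
        | some c => I c.1 c.2 with hJ
      refine ⟨hD1, hD2, x, hx1, hx2, J, ?_, ?_⟩
      · intro c
        match c with
        | none => exact Set.ordConnected_singleton
        | some c => exact hI c.1 c.2
      · have e1 : count D f I x = cB (tw o D P) J x := by
          apply count_eq
          intro p hp hp2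
          constructor
          · intro h1
            have h2 := h1 none
            have h3 : (js D p) ^ 2 * (if Good 1 f p then (1 : ℝ) else 0) = 1 := h2
            rw [js_sq D p hp] at h3
            have h4 : ¬ (p : ℤ) ∣ D := by
              intro h5
              rw [if_pos h5, zero_mul] at h3
              exact zero_ne_one h3
            have h6 : Good 1 f p := by
              by_contra h5
              rw [if_neg h5, mul_zero] at h3
              exact zero_ne_one h3
            refine ⟨⟨hp, hp2, h4, h6.2.2.2⟩, ?_⟩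
            intro i j
            have h7 : js D p ^ ((j : ℕ) + 1) * trace 1 (f i) p ((j : ℕ) + 1) ∈ I i j := h1 (some ⟨i, j⟩)
            rw [trace_twist D (f i) p _ hp hp2 (Nat.succ_ne_zero _) h4]
            exact h7
          · rintro ⟨h1, h2⟩ c
            match c with
            | none =>
              have h6 : Good 1 f p := by
                refine ⟨hp, hp2, ?_, h1.2.2.2⟩
                intro h5
                have := Int.isUnit_iff.1 (isUnit_of_dvd_one h5)
                have := hp.one_lt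
                omega
              change (js D p) ^ 2 * (if Good 1 f p then (1 : ℝ) else 0) = 1
              rw [js_sq D p hp, if_neg h1.2.2.1, if_pos h6, one_mul]
            | some ⟨i, j⟩ =>
              change js D p ^ ((j : ℕ) + 1) * trace 1 (f i) p ((j : ℕ) + 1) ∈ I i j
              rw [← trace_twist D (f i) p _ hp hp2 (Nat.succ_ne_zero _) h1.2.2.1]
              exact h2 i j
        have e2 : count 1 f I x = cB P J x := by
          apply count_eq
          intro p hp hp2
          constructor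
          · intro h1
            have h2 : (if Good 1 f p then (1 : ℝ) else 0) = 1 := h1 none
            have h6 : Good 1 f p := by
              by_contra h5
              rw [if_neg h5] at h2
              exact zero_ne_one h2
            exact ⟨h6, fun i j => h1 (some ⟨i, j⟩)⟩
          · rintro ⟨h1, h2⟩ c
            match c with
            | none =>
              change (if Good 1 f p then (1 : ℝ) else 0) = 1
              rw [if_pos h1]
            | some ⟨i, j⟩ => exact h2 i j
        have e3 : count 1 f (neg I) x = cB (rf o P) J x := by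
          apply count_eq
          intro p hp hp2
          constructor
          · intro h1
            have h2 : (-1 : ℝ) ^ 2 * (if Good 1 f p then (1 : ℝ) else 0) = 1 := h1 none
            have h6 : Good 1 f p := by
              by_contra h5
              rw [if_neg h5, mul_zero] at h2
              exact zero_ne_one h2
            exact ⟨h6, fun i j => h1 (some ⟨i, j⟩)⟩
          · rintro ⟨h1, h2⟩ c
            match c with
            | none =>
              change (-1 : ℝ) ^ 2 * (if Good 1 f p then (1 : ℝ) else 0) = 1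
              rw [if_pos h1]
              norm_num
            | some ⟨i, j⟩ => exact h2 i j
        rw [← e1, ← e2, ← e3]
        calc (x : ℝ) ^ θ < _ := hcon
          _ = _ := by
              congr 1
              ring
    · rw [← Set.ncard_eq_toFinset_card _ (hfin N _)]
      exact hfew
  · obtain ⟨C, c, _, hc, h⟩ := few d θ ε hθ hθ1 hε
    refine ⟨C, c, hc, ?_⟩
    filter_upwards [h] with N hN n M
    set o : Fin d → ℕ := fun j => (j : ℕ) + 1 with ho
    set P : ℕ → Fin d → ℝ := fun p j => (((M p) ^ ((j : ℕ) + 1)).trace).re with hP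
    have hfew := hN (Fin d) (Fintype.card_fin d) o P
    have htr : ∀ (s : ℤ) (p j : ℕ), ((((s : ℂ) • M p) ^ (j + 1)).trace).re =
        (s : ℝ) ^ (j + 1) * (((M p) ^ (j + 1)).trace).re := by
      intro s p j
      rw [_root_.smul_pow, Matrix.trace_smul, smul_eq_mul]
      have : ((s : ℂ) ^ (j + 1)) = (((s : ℝ) ^ (j + 1) : ℝ) : ℂ) := by push_cast; rfl
      rw [this, Complex.re_ofReal_mul]
    refine ⟨(hfin N (fun D => ∃ x : ℕ, Real.log N ^ C ≤ x ∧ (x : ℝ) ≤ (N : ℝ) ^ c ∧
        ∃ I : Fin d → Set ℝ, (∀ c, (I c).OrdConnected) ∧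
          (x : ℝ) ^ θ < |(cB (tw o D P) I x : ℝ) - 1 / 2 * ((cB P I x : ℝ) + cB (rf o P) I x)|)).toFinset,
      ?_, ?_⟩
    rotate_left
    · intro D hD1 hD2 hD3 x hx1 hx2 I hI
      by_contra hcon
      push Not at hcon
      apply hD3
      rw [Set.Finite.mem_toFinset]
      refine ⟨hD1, hD2, x, hx1, hx2, I, hI, ?_⟩
      have e1 : cnt D M I x = cB (tw o D P) I x := by
        apply cnt_eq
        intro p _ _
        apply forall_congr'
        intro j
        rw [htr]
        rfl
      have e2 : cnt 1 M I x = cB P I x := by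
        apply cnt_eq
        intro p _ _
        apply forall_congr'
        intro j
        rw [htr, jacobiSym.one_left]
        simp [hP]
      have e3 : cnt 1 (fun p => - M p) I x = cB (rf o P) I x := by
        apply cnt_eq
        intro p _ _
        apply forall_congr'
        intro j
        have h1 : ((jacobiSym 1 p : ℤ) : ℂ) • (fun p => - M p) p = ((-1 : ℤ) : ℂ) • M p := by
          rw [jacobiSym.one_left]
          simp
        rw [h1, htr]
        unfold rf
        push_cast
        rfl
      rw [← e1, ← e2, ← e3]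
      calc (x : ℝ) ^ θ < _ := hcon
        _ = _ := by
            congr 1
            ring
    · rw [← Set.ncard_eq_toFinset_card _ (hfin N _)]
      exact hfew

end Pool.Agent.Results.MP_c481b3_nt.AllButFewTwists
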