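import Pool.Agent.K4H53.SI.Fm

/-!
# MP_c481b3_nt: the Sato-Tate conjecture over a field and over a large family of extensions

`K` is a number field, `ρ` is a symplectic representation of `Gal(K̄/K)`, unramified outside a finite
set, for instance the representation on `V_ℓ(A)` for an abelian variety `A` over `K`.

(1) Without any hypothesis: the discrepancies of a class function over extensions `E_i` of `K`,
linearly disjoint in pairs, differ from the discrepancy over `K` in mean square, with the weights
`1/[E_i:K]`, by at most `4 sup |f|²` in total, at every large height.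

(2) If the Sato-Tate conjecture holds for `ρ` over the `E_i`, and the sum of the `1/[E_i:K]` diverges,
then it holds over `K`; (3), (4), (5) are consequences.

The proof is Bessel's inequality for the numbers of primes of degree one of the `E_i` above a prime of
`K`, on the side of the primes and on the side of the Haar measure.
-/

set_option autoImplicit false

namespace Pool.Agent.Results.MP_c481b3_nt.DescentFromManyFields

open Pool.Agent.K4H40.ST Pool.Agent.K4H53.SI
open NumberField IsDedekindDomain Filter Topology MeasureTheory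

theorem result {K : Type} [Field K] [NumberField K] {g : ℕ} {R : Type} [CommRing R]
    (ρ : Gal(AlgebraicClosure K/K) →* GL (Fin g ⊕ Fin g) R) (ι : R →+* ℂ)
    (hsymp : IsSymplectic ρ) (hunr : IsUnramified K (AlgebraicClosure K) ρ) :
    -- (1) comparison of the discrepancies over `K` and over the `E i`
    (∀ (I : Type) [Fintype I] (E : I → IntermediateField K (AlgebraicClosure K))
      [∀ i, NumberField (E i)],
      (∀ i j, i ≠ j → Module.finrank K (E i ⊔ E j : IntermediateField K (AlgebraicClosure K)) =
        Module.finrank K (E i) * Module.finrank K (E j)) →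
      ∀ C : Subgroup (GL (Fin g ⊕ Fin g) ℂ), IsSatoTateGroup (extend ρ ι) C →
      ∀ x : HeightOneSpectrum (𝓞 K) → C,
        IsClassSystem K (AlgebraicClosure K) (extend ρ ι) C x →
      ∃ (D : I → Subgroup (GL (Fin g ⊕ Fin g) ℂ)) (hD : ∀ i, D i ≤ C)
        (y : ∀ i, HeightOneSpectrum (𝓞 (E i)) → D i),
        (∀ i, IsSatoTateGroup (repOver ρ ι (E i)) (D i) ∧
          IsClassSystem (E i) (AlgebraicClosure K) (repOver ρ ι (E i)) (D i) (y i)) ∧
        ∀ [MeasurableSpace C] [BorelSpace C] (μ : Measure C) [IsProbabilityMeasure μ]
          [μ.IsMulLeftInvariant]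
          [∀ i, MeasurableSpace (D i)] [∀ i, BorelSpace (D i)] (ν : ∀ i, Measure (D i))
          [∀ i, IsProbabilityMeasure (ν i)] [∀ i, (ν i).IsMulLeftInvariant]
          (f : C → ℂ), Continuous f → (∀ c h, f (h * c * h⁻¹) = f c) →
        ∀ B : ℝ, (∀ c, ‖f c‖ ≤ B) → ∀ ε : ℝ, 0 < ε →
        ∀ᶠ N in atTop, ∑ i, ‖disc (E i) (ν i) (y i) (fun d => f (Subgroup.inclusion (hD i) d)) N -
          disc K μ x f N‖ ^ 2 / (Module.finrank K (E i) : ℝ) ≤ 4 * B ^ 2 + ε) ∧
    -- (2) Sato-Tate over pairwise linearly disjoint fields with `∑ 1/[E_i:K] = ∞` gives it over `K`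
    (∀ (I : Type) (E : I → IntermediateField K (AlgebraicClosure K)),
      (∀ i, Holds ρ ι (E i)) →
      (∀ i j, i ≠ j → Module.finrank K (E i ⊔ E j : IntermediateField K (AlgebraicClosure K)) =
        Module.finrank K (E i) * Module.finrank K (E j)) →
      (¬ Summable fun i => ((Module.finrank K (E i) : ℕ) : ℝ)⁻¹) →
      SatoTate K (AlgebraicClosure K) (extend ρ ι)) ∧
    -- (3) infinitely many extensions of one prime degree
    (∀ p : ℕ, p.Prime →
      {E : IntermediateField K (AlgebraicClosure K) |
        Module.finrank K E = p ∧ Holds ρ ι E}.Infinite →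
      SatoTate K (AlgebraicClosure K) (extend ρ ι)) ∧
    -- (4) extensions of different prime degrees
    ((¬ Summable fun p : {p : ℕ // p.Prime ∧
        ∃ E : IntermediateField K (AlgebraicClosure K), Module.finrank K E = p ∧ Holds ρ ι E} =>
        ((p : ℕ) : ℝ)⁻¹) →
      SatoTate K (AlgebraicClosure K) (extend ρ ι)) ∧
    -- (5) the minimal fields of bounded degree over which Sato-Tate holds
    (∀ n : ℕ, {E : IntermediateField K (AlgebraicClosure K) |
      Minimal (fun E : IntermediateField K (AlgebraicClosure K) =>
        Module.finrank K E ≤ n ∧ Holds ρ ι E) E}.Finite) := by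
  refine ⟨?_, fun I E hE hdis hsum => many ρ ι hsymp hunr E hE hdis hsum,
    fun p hp hinf => prime_degree ρ ι hsymp hunr p hp hinf,
    fun hsum => prime_degrees ρ ι hsymp hunr hsum,
    fun n => minimal_finite ρ ι hsymp hunr n⟩
  intro I _ E _ hdis C hC x hx
  exact comparison ρ ι hsymp hunr E hdis C hC x hx

end Pool.Agent.Results.MP_c481b3_nt.DescentFromManyFields
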