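import Pool.Agent.K4H4.ST.Fin1
import Pool.Agent.K4H4.ST.Gauss

/-!
# All Sato-Tate moments of degree at most `2 g + 1`, with square-root cancellation, for almost all hyperelliptic curves of genus `g`
over an arbitrary number field

The coefficients of the curve are arbitrary integers of the number field in which a few digits of the coordinates have been changed.
The local means are computed by the independence of the values of a random monic polynomial of degree `2 g + 1` at closed points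
of total degree at most `2 g + 1`; the error terms by Weil's bound.
-/

set_option autoImplicit false

namespace Pool.Agent.Results.MP_c481b3_nt.JointMomentsNumberFields

open Finset IsDedekindDomain NumberField Polynomial

/-- The number of the solutions of `y ^ 2 = f x` in the extension of degree `j` of the finite field `k`: this extension consists of the
elements `z` of the algebraic closure of `k` with `z ^ (q ^ j) = z`, where `q` is the number of the elements of `k`. -/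
noncomputable def points (k : Type) [Field k] (f : k[X]) (j : ℕ) : ℕ :=
  Nat.card {z : AlgebraicClosure k × AlgebraicClosure k //
    z.1 ^ (Nat.card k ^ j) = z.1 ∧ z.2 ^ (Nat.card k ^ j) = z.2 ∧ z.2 ^ 2 = aeval z.1 f}

variable {K : Type} [Field K] [NumberField K]

/-- The normalised trace of the `j`-th power of the Frobenius at the prime `𝔭` for the curve `y ^ 2 = F x`, where `F` is monic of odd
degree with integral coefficients: `(q ^ j - N_j) / q ^ (j / 2)`, where `q` is the norm of `𝔭` and `N_j` is the number of the affine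
points modulo `𝔭` over the extension of degree `j`. If the Jacobian has good reduction at `𝔭` this is the sum of the `j`-th powers
of the `2 g` normalised eigenvalues of the Frobenius. -/
noncomputable def trace (𝔭 : HeightOneSpectrum (𝓞 K)) (F : (𝓞 K)[X]) (j : ℕ) : ℝ :=
  letI : Field (𝓞 K ⧸ 𝔭.asIdeal) := Ideal.Quotient.field 𝔭.asIdeal
  ((Ideal.absNorm 𝔭.asIdeal : ℝ) ^ j - points (𝓞 K ⧸ 𝔭.asIdeal) (F.map (Ideal.Quotient.mk 𝔭.asIdeal)) j) /
    Real.sqrt (Ideal.absNorm 𝔭.asIdeal) ^ j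

/-- The prime `𝔭` does not divide `2` and `F` is separable modulo `𝔭` (so that the curve `y ^ 2 = F x` has good reduction). -/
def Good (F : (𝓞 K)[X]) (𝔭 : HeightOneSpectrum (𝓞 K)) : Prop :=
  (2 : 𝓞 K) ∉ 𝔭.asIdeal ∧ (F.map (Ideal.Quotient.mk 𝔭.asIdeal)).Separable

/-- The primes of norm at most `n`. -/
noncomputable def primes (K : Type) [Field K] [NumberField K] (n : ℕ) : Finset (HeightOneSpectrum (𝓞 K)) :=
  (Ring.HasFiniteQuotients.finite_absNorm_heightOneSpectrum_le (R := 𝓞 K) n).toFinset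

/-- The mean of the product of the `tr (U ^ j) ^ κ j` (`j = 1, ..., 2 g + 1`; the entry with the index `j` of `κ` belongs to the power
`j + 1`): the product of the moments of `j ^ (1 / 2) Z - η j`, where `Z` is a standard normal variable and `η j` is `1` for even `j` and
`0` for odd `j`. For `∑ j κ j ≤ 2 g + 1` this is the integral over `USp(2 g)` with respect to the Haar probability measure. -/
noncomputable def haarMean (g : ℕ) (κ : Fin (2 * g + 1) → ℕ) : ℝ :=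
  ∏ j : Fin (2 * g + 1), ∫ z : ℝ, (Real.sqrt ((j : ℕ) + 1 : ℕ) * z - if Even ((j : ℕ) + 1) then 1 else 0) ^ (κ j)
    ∂(ProbabilityTheory.gaussianReal 0 1)

/-- The polynomial `X ^ (2 g + 1) + ∑ i, (γ i + ∑ t, m (i, t) ω t) X ^ i`; the pairs `(i, t)` are numbered by `finProdFinEquiv`. -/
noncomputable def poly (g : ℕ) {h : ℕ} (ω : Module.Basis (Fin h) ℤ (𝓞 K)) (γ : Fin (2 * g + 1) → 𝓞 K)
    (m : Fin ((2 * g + 1) * h) → ℕ) : (𝓞 K)[X] :=
  X ^ (2 * g + 1) + ∑ i : Fin (2 * g + 1), C (γ i + ∑ t, m (finProdFinEquiv (i, t)) • ω t) * X ^ (i : ℕ)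

open Classical in
/-- For all the weights in `W` and all products of traces of powers of the Frobenius of total degree at most `2 g + 1`
the weighted sum of the differences from the mean over the good primes of norm at most `n` is at most
`(max 1 (∑ w 𝔭 ^ 2)) ^ (1 / 2) n ^ δ`. -/
def Cancels (g : ℕ) (δ : ℝ) (W : Finset (HeightOneSpectrum (𝓞 K) → ℝ)) (n : ℕ) (F : (𝓞 K)[X]) : Prop :=
  ∀ w ∈ W, ∀ κ : Fin (2 * g + 1) → ℕ, ∑ j : Fin (2 * g + 1), κ j * ((j : ℕ) + 1) ≤ 2 * g + 1 →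
    |∑ 𝔭 ∈ (primes K n).filter (Good F), w 𝔭 * (∏ j : Fin (2 * g + 1), trace 𝔭 F ((j : ℕ) + 1) ^ (κ j) - haarMean g κ)| ≤
      Real.sqrt (max 1 (∑ 𝔭 ∈ primes K n, w 𝔭 ^ 2)) * (n : ℝ) ^ δ

/-- The digit number `i` (counted from the right, beginning with `0`) of `n` in base `b`. -/
def digit (b i n : ℕ) : ℕ := n / b ^ i % b

/-- The number which arises from the number `N` with at most `M` digits in base `b`, if for every `i ∈ S`
the digit number `i` is replaced by `f i`. -/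
def change (b M N : ℕ) (f : ℕ → ℕ) (S : Finset ℕ) : ℕ :=
  ∑ i ∈ range M, (if i ∈ S then f i else digit b i N) * b ^ i

open Classical in
/-- The number of the choices of `r l` of `M l` positions for all `l < d` for which the vector of the numbers obtained by
changing the digits of the `N l` at the chosen positions (according to `f l`) does not have the property `E`. -/
noncomputable def exceptions {d : ℕ} (b : ℕ) (M r N : Fin d → ℕ) (f : Fin d → ℕ → ℕ) (E : (Fin d → ℕ) → Prop) : ℕ :=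
  ((Fintype.piFinset (fun l => powersetCard (r l) (range (M l)))).filter
    (fun S => ¬ E (fun l => change b (M l) (N l) (f l) (S l)))).card

lemma exc_eq {d : ℕ} (b : ℕ) (M r N : Fin d → ℕ) (f : Fin d → ℕ → ℕ) (E : (Fin d → ℕ) → Prop) :
    exceptions b M r N f E = Pool.Agent.Y57.FD.exceptions b M r N f E := rfl

lemma primes_eq (n : ℕ) : primes K n = Pool.Agent.K4H4.ST.NF.primes K n := by
  ext 𝔭
  rw [Pool.Agent.K4H4.ST.NF.mem_primes]
  unfold primes
  rw [Set.Finite.mem_toFinset]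
  rfl

lemma haar_eq (g : ℕ) (κ : Fin (2 * g + 1) → ℕ) : haarMean g κ = Pool.Agent.K4H4.ST.GG κ := by
  unfold haarMean Pool.Agent.K4H4.ST.GG
  apply prod_congr rfl
  intro j _
  rw [Pool.Agent.K4H4.ST.gm_eq]
  rfl

open Classical in
lemma term_eq (g : ℕ) {h : ℕ} (ω : Module.Basis (Fin h) ℤ (𝓞 K)) (γ : Fin (2 * g + 1) → 𝓞 K) (m : Fin ((2 * g + 1) * h) → ℕ)
    (κ : Fin (2 * g + 1) → ℕ) (𝔭 : HeightOneSpectrum (𝓞 K)) :
    (if Good (poly g ω γ m) 𝔭 then ∏ j : Fin (2 * g + 1), trace 𝔭 (poly g ω γ m) ((j : ℕ) + 1) ^ (κ j) - haarMean g κ else 0) =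
    Pool.Agent.K4H4.ST.HP κ 𝔭 (fun i => Ideal.Quotient.mk 𝔭.asIdeal (γ i + Pool.Agent.K4H4.ST.NF.cf ω m i)) := by
  letI : Field (𝓞 K ⧸ 𝔭.asIdeal) := Ideal.Quotient.field 𝔭.asIdeal
  have hpoly : (poly g ω γ m).map (Ideal.Quotient.mk 𝔭.asIdeal) =
      Pool.Agent.K4H4.ST.pl (2 * g + 1) (fun i => Ideal.Quotient.mk 𝔭.asIdeal (γ i + Pool.Agent.K4H4.ST.NF.cf ω m i)) := by
    unfold poly Pool.Agent.K4H4.ST.pl Pool.Agent.K4H4.ST.NF.cf
    rw [Polynomial.map_add, Polynomial.map_pow, Polynomial.map_X, Polynomial.map_sum]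
    congr 1
    apply sum_congr rfl
    intro i _
    rw [Polynomial.map_mul, Polynomial.map_C, Polynomial.map_pow, Polynomial.map_X]
  have h2 : (2 : 𝓞 K) ∉ 𝔭.asIdeal ↔ (2 : 𝓞 K ⧸ 𝔭.asIdeal) ≠ 0 := by
    rw [← Ideal.Quotient.eq_zero_iff_mem, map_ofNat]
  have htr : ∀ j : ℕ, trace 𝔭 (poly g ω γ m) j = Pool.Agent.K4H4.ST.tr (𝓞 K ⧸ 𝔭.asIdeal)
      (Pool.Agent.K4H4.ST.pl (2 * g + 1) (fun i => Ideal.Quotient.mk 𝔭.asIdeal (γ i + Pool.Agent.K4H4.ST.NF.cf ω m i))) j := by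
    intro j
    unfold trace Pool.Agent.K4H4.ST.tr
    rw [Pool.Agent.K4H4.ST.NF.card_quot, ← hpoly]
    rfl
  unfold Pool.Agent.K4H4.ST.HP Pool.Agent.K4H4.ST.Hk
  have hgood : Good (poly g ω γ m) 𝔭 ↔ (2 : 𝓞 K ⧸ 𝔭.asIdeal) ≠ 0 ∧
      (Pool.Agent.K4H4.ST.pl (2 * g + 1) (fun i => Ideal.Quotient.mk 𝔭.asIdeal (γ i + Pool.Agent.K4H4.ST.NF.cf ω m i))).Separable := by
    unfold Good
    rw [h2, hpoly]
  by_cases hg : Good (poly g ω γ m) 𝔭
  · rw [if_pos hg, if_pos (hgood.1 hg), haar_eq]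
    congr 1
    apply prod_congr rfl
    intro j _
    rw [htr]
  · rw [if_neg hg, if_neg (fun h => hg (hgood.2 h))]

/-- Let `K` be a number field, `g ≥ 1`, `ω` a basis of the ring of integers of `K`, `b ≥ 2`, `δ > 0` and `A, B ≥ 0`. There are `c > 0`
and `y₀` such that for all integers `r l`, `M l`, `y` with `2 r l ≤ M l` and `y ≥ y₀` the following holds.

Let `γ i` be arbitrary integers of `K` and `0 ≤ N l < b ^ M l` arbitrary integers, prescribe for every position `j` a digit `f l j`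
different from the digit of `N l` in base `b`, and let for every `n` an arbitrary set `W n` of at most `n ^ B` weights
`w` with `|w 𝔭| ≤ 1` be given (for instance the indicator functions of sets of primes, or the values of characters). If one chooses
`r l` of the `M l` positions and replaces the digits of `N l` at these positions, then for all but at most a proportion `1 / y ^ A` of
the choices the hyperelliptic curve `Y ^ 2 = X ^ (2 g + 1) + ∑ i (γ i + ∑ t m (i, t) ω t) X ^ i` of genus `g` over `K` with the numbers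
`m` obtained has the following property: for all integers `n` with `y ≤ n ≤ exp (c r l)` for all `l`, all weights `w ∈ W n` and all
products of the normalised traces of the powers of the Frobenius of total degree at most `2 g + 1`, the sum over the good primes
of norm at most `n` of `w 𝔭` times (the product minus its mean over `USp(2 g)`) is at most
`(max 1 (∑ w 𝔭 ^ 2)) ^ (1 / 2) n ^ δ`. -/
theorem result (K : Type) [Field K] [NumberField K] (g : ℕ) (h : ℕ) (ω : Module.Basis (Fin h) ℤ (𝓞 K))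
    (b : ℕ) (hb : 2 ≤ b) (δ : ℝ) (hδ : 0 < δ) (A B : ℕ) :
    ∃ c : ℝ, 0 < c ∧ ∃ y₀ : ℕ,
    ∀ (M r : Fin ((2 * g + 1) * h) → ℕ) (y : ℕ), (∀ l, 2 * r l ≤ M l) → y₀ ≤ y →
    ∀ N : Fin ((2 * g + 1) * h) → ℕ, (∀ l, N l < b ^ M l) →
    ∀ f : Fin ((2 * g + 1) * h) → ℕ → ℕ, (∀ l j, f l j < b ∧ f l j ≠ digit b j (N l)) →
    ∀ γ : Fin (2 * g + 1) → 𝓞 K,
    ∀ W : ℕ → Finset (HeightOneSpectrum (𝓞 K) → ℝ), (∀ n, (W n).card ≤ n ^ B) → (∀ n, ∀ w ∈ W n, ∀ 𝔭, |w 𝔭| ≤ 1) →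
    (exceptions b M r N f (fun m => ∀ n : ℕ, y ≤ n → (∀ l, (n : ℝ) ≤ Real.exp (c * r l)) → Cancels g δ (W n) n (poly g ω γ m)) : ℝ) ≤
      1 / (y : ℝ) ^ A * ∏ l, ((M l).choose (r l) : ℝ) := by
  classical
  obtain ⟨D, hD⟩ : ∃ D : ℕ, D = 2 * g + 1 := ⟨_, rfl⟩
  have hodd : Odd (2 * g + 1) := ⟨g, rfl⟩
  have hrank : Module.finrank ℤ (𝓞 K) = h := by
    rw [Module.finrank_eq_card_basis ω, Fintype.card_fin]
  -- the exponents
  obtain ⟨I, hI⟩ : ∃ I : Finset (Fin (2 * g + 1) → ℕ), I = (Fintype.piFinset (fun _ : Fin (2 * g + 1) => range (2 * g + 2))).filter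
    (fun κ => ∑ j : Fin (2 * g + 1), κ j * ((j : ℕ) + 1) ≤ 2 * g + 1) := ⟨_, rfl⟩
  have hmemI : ∀ κ : Fin (2 * g + 1) → ℕ, ∑ j : Fin (2 * g + 1), κ j * ((j : ℕ) + 1) ≤ 2 * g + 1 → κ ∈ I := by
    intro κ hκ
    rw [hI, mem_filter]
    refine ⟨?_, hκ⟩
    rw [Fintype.mem_piFinset]
    intro j
    rw [mem_range]
    have h1 : κ j * ((j : ℕ) + 1) ≤ ∑ j : Fin (2 * g + 1), κ j * ((j : ℕ) + 1) :=
      single_le_sum (f := fun j : Fin (2 * g + 1) => κ j * ((j : ℕ) + 1)) (fun _ _ => Nat.zero_le _) (mem_univ j)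
    have h2 : κ j ≤ κ j * ((j : ℕ) + 1) := Nat.le_mul_of_pos_right _ (by omega)
    omega
  have hch : ∀ κ : Fin (2 * g + 1) → ℕ, ∃ C : ℝ, 0 ≤ C ∧ (κ ∈ I → ∀ 𝔭 : HeightOneSpectrum (𝓞 K),
      |Pool.Agent.K4H4.ST.NF.avg (Pool.Agent.K4H4.ST.HP κ 𝔭)| ≤ C / Real.sqrt (Ideal.absNorm 𝔭.asIdeal)) := by
    intro κ
    by_cases hκ : κ ∈ I
    · rw [hI, mem_filter] at hκ
      obtain ⟨C, hC0, hC⟩ := Pool.Agent.K4H4.ST.HP_mean (2 * g + 1) hodd κ hκ.2 h
      exact ⟨C, hC0, fun _ => hC K hrank⟩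
    · exact ⟨0, le_rfl, fun h => absurd h hκ⟩
  choose C hC0 hC using hch
  obtain ⟨Bd, hBd⟩ : ∃ Bd : ℝ, Bd = 1 + ∑ κ ∈ I, (((2 * g + 1 : ℕ) : ℝ) ^ (2 * g + 1) + |Pool.Agent.K4H4.ST.GG κ|) := ⟨_, rfl⟩
  have hBd1 : 1 ≤ Bd := by
    rw [hBd]
    have : 0 ≤ ∑ κ ∈ I, (((2 * g + 1 : ℕ) : ℝ) ^ (2 * g + 1) + |Pool.Agent.K4H4.ST.GG κ|) := sum_nonneg fun κ _ => by positivity
    linarith
  obtain ⟨C₀, hC₀⟩ : ∃ C₀ : ℝ, C₀ = ∑ κ ∈ I, C κ := ⟨_, rfl⟩
  have hC₀0 : 0 ≤ C₀ := by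
    rw [hC₀]
    exact sum_nonneg fun κ _ => hC0 κ
  obtain ⟨c, hc, y₀, hmain⟩ := Pool.Agent.K4H4.ST.NF.engine K h ω (2 * g + 1) (by omega) b hb δ hδ A (B + I.card) Bd C₀ hBd1 hC₀0
  refine ⟨c, hc, y₀ + 2, fun M r y hrM hy N hN f hf γ W hWc hW1 => ?_⟩
  rw [exc_eq]
  refine hmain M r y hrM (by omega) N hN f hf γ ((HeightOneSpectrum (𝓞 K) → ℝ) × (Fin (2 * g + 1) → ℕ)) (fun n => W n ×ˢ I) ?_
    (fun x => x.1) ?_ (fun x 𝔭 u => if x.2 ∈ I then Pool.Agent.K4H4.ST.HP x.2 𝔭 u else 0) ?_ ?_ _ ?_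
  · intro n hn
    rw [card_product, pow_add]
    apply Nat.mul_le_mul (hWc n)
    calc I.card ≤ 2 ^ I.card := Nat.lt_two_pow_self.le
      _ ≤ n ^ I.card := Nat.pow_le_pow_left hn _
  · intro n x hx 𝔭
    rw [mem_product] at hx
    exact hW1 n x.1 hx.1 𝔭
  · intro x 𝔭 u
    show |(if x.2 ∈ I then Pool.Agent.K4H4.ST.HP x.2 𝔭 u else 0)| ≤ Bd
    split_ifs with hx
    · have hx2 := hx
      rw [hI, mem_filter] at hx2
      refine (Pool.Agent.K4H4.ST.HP_bound (2 * g + 1) hodd x.2 hx2.2 𝔭 u).trans ?_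
      rw [hBd]
      have := single_le_sum (f := fun κ : Fin (2 * g + 1) → ℕ => ((2 * g + 1 : ℕ) : ℝ) ^ (2 * g + 1) + |Pool.Agent.K4H4.ST.GG κ|)
        (fun κ _ => by positivity) hx
      linarith
    · rw [abs_zero]
      linarith
  · intro n x hx 𝔭
    rw [mem_product] at hx
    have h1 : (fun u => if x.2 ∈ I then Pool.Agent.K4H4.ST.HP x.2 𝔭 u else 0) = Pool.Agent.K4H4.ST.HP x.2 𝔭 := by
      funext u
      rw [if_pos hx.2]
    show |Pool.Agent.K4H4.ST.NF.avg (fun u => if x.2 ∈ I then Pool.Agent.K4H4.ST.HP x.2 𝔭 u else 0)| ≤ _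
    rw [h1]
    refine (hC x.2 hx.2 𝔭).trans ?_
    apply div_le_div_of_nonneg_right _ (Real.sqrt_nonneg _)
    rw [hC₀]
    exact single_le_sum (f := C) (fun κ _ => hC0 κ) hx.2
  · intro m hm n hyn hnr w hw κ hκ
    have h1 := hm n (by omega) (by omega) hnr (w, κ) (mem_product.2 ⟨hw, hmemI κ hκ⟩)
    rw [primes_eq]
    refine le_trans (le_of_eq ?_) h1
    congr 1
    rw [sum_filter]
    apply sum_congr rfl
    intro 𝔭 _
    show (if Good (poly g ω γ m) 𝔭 then w 𝔭 * (∏ j : Fin (2 * g + 1), trace 𝔭 (poly g ω γ m) ((j : ℕ) + 1) ^ (κ j) - haarMean g κ) else 0) =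
      w 𝔭 * (if κ ∈ I then Pool.Agent.K4H4.ST.HP κ 𝔭 (fun i => Ideal.Quotient.mk 𝔭.asIdeal (γ i + Pool.Agent.K4H4.ST.NF.cf ω m i)) else 0)
    rw [if_pos (hmemI κ hκ), ← term_eq g ω γ m κ 𝔭]
    split_ifs
    · rfl
    · rw [mul_zero]

end Pool.Agent.Results.MP_c481b3_nt.JointMomentsNumberFields
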