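import Mathlib
import Pool.Agent.K4H40.ST.Final

/-!
# The Sato-Tate conjecture is equivalent to its locally trivial case

Let `A` be an abelian variety over a number field `K`, and let `ρ : Gal(K̄/K) → GSp_{2g}(ℚ_ℓ)` be its
`ℓ`-adic representation, `ι : ℚ_ℓ → ℂ`. The theorem is for every homomorphism
`ρ : Gal(K̄/K) → GSp_{2g}(ℚ_ℓ)` which is unramified outside of a finite set of primes.

**Theorem.** Let `M/K` be an arbitrary finite Galois extension, for example `M = K(A[n])`, let `S` be an
arbitrary finite set of primes of `K`, and `N₀` any number. Then the following are equivalent.

1. The Sato-Tate conjecture is true for `A` over all finite extensions `L` of `K`.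
2. The Sato-Tate conjecture is true for `A` over those finite extensions `E` of `K` for which
   * `EM/E` is cyclic,
   * `EM/E` is unramified at all finite and infinite places,
   * all primes of `E` above `S` split completely in `EM`,
   * `EM` is contained in `E(ζ_p)` for a prime number `p > N₀`.

In particular `EM` is contained in the Hilbert class field of `E`, and it is a part of a cyclotomic
extension of prime conductor. So Q1, in general, is equivalent to its special case of the pairs
`(A, E)` for which the Galois module `A[n]` (for any given `n`, all small primes may divide it) is
unramified at all places of `E`, trivial at all places above a given finite set, and has a cyclic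
image which is a quotient of the Galois group of `E(ζ_p)/E` for a large prime `p`. If `12 ∣ n` and
`S` contains the primes of bad reduction, then `A` is semistable over `E` (Raynaud), and it has
good reduction everywhere over `E` if it has potentially good reduction. If `M` contains the field
over which the Zariski closure of the image becomes connected, then the group of components of the
Sato-Tate group of `A` over `E` is cyclic. If `M` is totally complex then `E` is totally complex.

More precisely, the implication from (2) to (1) is true for each field separately, and with fewer
fields: the Sato-Tate conjecture over `K` itself follows from the Sato-Tate conjecture over the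
fields `E ⊆ M(ζ_p)` as in (2) for which `E K' = M K'` for a field `K ⊆ K' ⊆ K(ζ_p)` in which `S` and
all infinite places of `K` split completely (`Pool.Agent.K4H40.ST.Main.main`; the completions of `E`
at the places above `S` and at the infinite places are then those of `M`). This is applied to
the finite extensions `L` of `K` in the place of `K`.

Artin's induction theorem gives a reduction to the fields `L ⊆ E ⊆ LM` with `LM/E` cyclic. In this
reduction there are no local conditions, and there cannot be any: at the primes of `L` which are
ramified, or not split, in `LM` the elements of the decomposition groups are only in the cyclic
subgroups of the Galois group which contain them. Here all primes outside of a set of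
arbitrarily small density are reached by fields with all local conditions. I know no such
reduction for the Sato-Tate conjecture.

## The definitions

They are in `Pool.Agent.K4H40.ST.Statement`.

* `IsFrob F Ω v σ`, `IsInert F Ω v σ`: `σ ∈ Gal(Ω/F)` is a Frobenius element, is in the inertia group, of
  a maximal ideal above `v` of the ring of all algebraic integers in `Ω`.
* `zar X`: the Zariski closure in `GL_m(ℂ)`; `extend ρ ι`: the complex representation;
  `G1 r = zar (image of r) ∩ Sp_{2g}(ℂ)`.
* `IsSatoTateGroup r C`: `C` is a compact subgroup of `G1 r` which is Zariski dense in `G1 r`. By a theorem
  of Faltings `G1 r` is reductive for an abelian variety, and then these are the maximal compact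
  subgroups of `G1 r`, that is, the Sato-Tate groups.
* `IsClassSystem F Ω r C x`: for all but finitely many `v` the element `x v` of `C` is conjugate in
  `G1 r` to `N(v)^(-1/2)` times the image of a Frobenius element.
* `SatoTate F Ω r`: for all such `C` and `x` and the Haar probability measure `μ` on `C`, the averages
  of `f (x v)` over the primes `v` of `F` with norm at most `N` converge to `∫ f dμ`, for all continuous
  class functions `f` on `C`.
* `SatoTateOver ρ ι E`: `SatoTate` for the restriction of `ρ` to `Gal(K̄/E)`; `IsSymplectic`,
  `IsUnramified`: the values of `ρ` are symplectic similitudes, and it is unramified outside of a
  finite set.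
* `LocallyTrivial`: the conditions on `E` in (2), expressed by the decomposition groups (`IsDecomp`), the
  inertia groups and the complex conjugations (`IsConj`) in `Gal(K̄/E)`.

## The proof

We may replace `K` by `L` and `M` by `LM`. Let `U = Gal(K̄/M)`, of index `e` in `Γ = Gal(K̄/K)`. Choose a
prime `p > N₀` with `p ≡ 1 (mod 2 e^R)` such that all rational primes below `S` and below the primes
ramified in `M` are `e^R`-th powers modulo `p`. Let `W` be the kernel of the `(p - 1)/e^R`-th power of the
cyclotomic character modulo `p`. Then `W` contains all decomposition groups above `S` and above the
ramified primes, and the complex conjugations; if `R` is large then, except for a proportion `ε`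
of the elements `σ` of `Γ`, the order of `σ` in the cyclic group `Γ/W` is divisible by `e`. For these
`σ` the group `C` generated by `σ` and `V = U ∩ W` satisfies `C ∩ W ≤ U`; so the elements of
decomposition groups above `S`, of inertia groups, and the complex conjugations which are in `C` are in
`U`, and the fixed field of `C` is as in (2). The set of the cyclic subgroups `C` of `Γ/V` with
this property is closed under conjugation and passage to subgroups, and a form of Artin's induction
theorem (`Grp.task_grp`) writes the indicator function of the good elements as a combination of the
permutation characters of `Γ/C`. The sums over the primes of `K` with these weights are sums over the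
primes of degree one of the fields `E`. The Sato-Tate groups and the classes over `E` are
constructed from those over `K` (`Zar2`, `Cls`): one shows that `C ∩ zar (r (Gal(K̄/E)))` is a
Sato-Tate group over `E`, and that the classes are conjugate under the smaller group. The error is
bounded by `2 ε max |f|` with Chebotarev's theorem and a computation of Haar measures.

The auxiliary prime is by helper15 (`AuxA`, `AuxB`, `AuxM`) and helper58, the group theory by helper82
(`Grp`), the Haar measures by helper2 (`Haar`), Frobenius elements in towers and the counting of
primes by helper10 (`Frob`, `Count`), the transport along isomorphisms by helper99 (`Equiv`), all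
for helper40.
-/

set_option autoImplicit false

namespace Pool.Agent.Results.MP_c481b3_nt.LocallyTrivialExtensions

open NumberField IsDedekindDomain Pool.Agent.K4H40.ST

/-- **The Sato-Tate conjecture is equivalent to its locally trivial case.** Let `K` be a number field,
`ρ : Gal(K̄/K) → GSp_{2g}(ℚ_ℓ)` a representation which is unramified outside of a finite set of primes,
`ι : ℚ_ℓ → ℂ`. Let `M/K` be a finite Galois extension, `S` a finite set of primes of `K`, `N₀` a
natural number. The Sato-Tate conjecture is true for the restriction of `ρ` to `Gal(K̄/L)` for all
finite extensions `L` of `K` if and only if it is true for the restriction of `ρ` to `Gal(K̄/E)` for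
those finite extensions `E` of `K` for which `EM/E` is cyclic, unramified at all finite and infinite
places, completely split above `S`, and contained in `E(ζ_p)` for a prime number `p > N₀`. -/
theorem result (K : Type) [Field K] [NumberField K] (g ℓ : ℕ) [Fact ℓ.Prime]
    (ρ : Gal(AlgebraicClosure K/K) →* GL (Fin g ⊕ Fin g) ℚ_[ℓ]) (ι : ℚ_[ℓ] →+* ℂ)
    (hsymp : IsSymplectic ρ) (hunr : IsUnramified K (AlgebraicClosure K) ρ)
    (M : IntermediateField K (AlgebraicClosure K)) [FiniteDimensional K M] [IsGalois K M]
    (S : Set (HeightOneSpectrum (𝓞 K))) (hS : S.Finite) (N₀ : ℕ) :
    (∀ (L : IntermediateField K (AlgebraicClosure K)) [NumberField L], SatoTateOver ρ ι L) ↔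
    (∀ (E : IntermediateField K (AlgebraicClosure K)) [NumberField E],
      LocallyTrivial K (AlgebraicClosure K) M S N₀ E → SatoTateOver ρ ι E) :=
  Final.final ρ ι hsymp hunr M S hS N₀

end Pool.Agent.Results.MP_c481b3_nt.LocallyTrivialExtensions
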